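import Pool.Agent.Y781.JR.Dens
import Pool.Agent.Y882.JR.Fin

set_option autoImplicit false

/-! The densities of the polynomial `X ^ 2 + X + A`. -/

namespace Pool.Agent.E8helper86.EL

open Finset Polynomial Filter
open Pool.Agent.W23.DC
open Pool.Agent.Y882.PX
open Pool.Agent.Y882.SI
open Pool.Agent.Y882.JR

/-- the polynomial `X ^ 2 + X + A` -/
noncomputable def EF (A : ℤ) : ℤ[X] := X ^ 2 + X + C A

theorem EF_eval (A n : ℤ) : (EF A).eval n = n ^ 2 + n + A := by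
  unfold EF
  simp

theorem ro_EF (A : ℤ) (p : ℕ) (hp : p.Prime) (h2 : p ≠ 2) :
    (ro (EF A) 0 p : ℤ) = 1 + jacobiSym (1 - 4 * A) p := by
  have : Fact p.Prime := ⟨hp⟩
  have h20 : (2 : ZMod p) ≠ 0 := by
    intro h
    have h1 : ((2 : ℕ) : ZMod p) = 0 := by exact_mod_cast h
    rw [ZMod.natCast_eq_zero_iff] at h1
    exact h2 ((Nat.prime_dvd_prime_iff_eq hp Nat.prime_two).1 h1)
  have h40 : (4 : ZMod p) ≠ 0 := by
    have : (4 : ZMod p) = 2 * 2 := by norm_num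
    rw [this]
    exact mul_ne_zero h20 h20
  rw [← jacobiSym.legendreSym.to_jacobiSym, add_comm, ← legendreSym.card_sqrts p h2 (1 - 4 * A)]
  rw [ro_eq]
  congr 1
  apply card_bij' (i := fun (n : ℕ) _ => 2 * (n : ZMod p) + 1) (j := fun (x : ZMod p) _ => ((x - 1) * 2⁻¹).val)
  · intro n hn
    rw [mem_filter, mem_range, EF_eval, add_zero] at hn
    rw [Set.mem_toFinset, Set.mem_setOf_eq]
    have h1 := (ZMod.intCast_zmod_eq_zero_iff_dvd ((n : ℤ) ^ 2 + n + A) p).2 hn.2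
    push_cast at h1 ⊢
    linear_combination 4 * h1
  · intro x hx
    rw [Set.mem_toFinset, Set.mem_setOf_eq] at hx
    rw [mem_filter, mem_range, EF_eval, add_zero]
    refine ⟨ZMod.val_lt _, ?_⟩
    rw [← ZMod.intCast_zmod_eq_zero_iff_dvd]
    push_cast at hx ⊢
    rw [ZMod.natCast_zmod_val]
    have h3 : 2 * ((x - 1) * 2⁻¹) + 1 = x := by
      field_simp
      ring
    apply mul_left_cancel₀ h40
    obtain ⟨y, hy⟩ : ∃ y, y = (x - 1) * 2⁻¹ := ⟨_, rfl⟩
    rw [← hy] at h3 ⊢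
    rw [mul_zero]
    rw [← h3] at hx
    linear_combination hx
  · intro n hn
    rw [mem_filter, mem_range] at hn
    have h3 : (2 * (n : ZMod p) + 1 - 1) * 2⁻¹ = n := by
      field_simp
      ring
    rw [h3]
    exact ZMod.val_cast_of_lt hn.1
  · intro x _
    rw [ZMod.natCast_zmod_val]
    field_simp
    ring

theorem ro_odd (A : ℤ) (p : ℕ) (hp : p.Prime) (h2 : p ≠ 2) :
    ro (EF A) 0 p = ro (QF (4 * A - 1)) 0 p := by
  have h1 := ro_EF A p hp h2
  have h3 := ro_quad (4 * A - 1) p hp h2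
  rw [show -(4 * A - 1) = 1 - 4 * A by ring] at h3
  omega

theorem ro_even (A : ℤ) (hA : Odd A) : ro (EF A) 0 2 = 0 := by
  rw [ro_eq, card_eq_zero, filter_eq_empty_iff]
  intro n hn hd
  rw [EF_eval, add_zero] at hd
  obtain ⟨t, ht⟩ := hA
  have h1 : ((2 : ℕ) : ℤ) ∣ (n : ℤ) ^ 2 + n := by
    have : (n : ℤ) ^ 2 + n = n * (n + 1) := by ring
    rw [this]
    exact_mod_cast (Int.even_mul_succ_self (n : ℤ)).two_dvd
  push_cast at h1 hd
  omega

theorem ro_EF_le (A : ℤ) (p : ℕ) (hp : p.Prime) : ro (EF A) 0 p ≤ 2 := by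
  by_cases h2 : p = 2
  · rw [h2]
    exact ro_le_self _ _ _
  · rw [ro_odd A p hp h2]
    exact ro_quad_le _ p hp

/-- the densities of `X ^ 2 + X + A` are regular -/
theorem mer_EF (A : ℤ) (hns : ¬ IsSquare (1 - 4 * A)) (ε₁ υ η : ℝ) (hε : 0 < ε₁) (hυ : υ ≤ 1)
    (hη : 0 < η) : ∃ Y0 : ℕ, ∀ Y : ℕ, Y0 ≤ Y →
      Mer (pr Y ε₁ υ) (tt Y) (fun p => (ro (EF A) 0 p : ℝ) / p) ε₁ υ η := by
  obtain ⟨Y1, h1⟩ := mer_quad (4 * A - 1) (by rw [show -(4 * A - 1) = 1 - 4 * A by ring]; exact hns) ε₁ υ η hε hυ hη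
  have ev : ∀ᶠ Y : ℕ in atTop, Real.log 2 / ε₁ + 1 ≤ Real.log Y :=
    (Real.tendsto_log_atTop.comp tendsto_natCast_atTop_atTop).eventually_ge_atTop _
  obtain ⟨Y2, h2⟩ := eventually_atTop.1 ev
  refine ⟨Y1 + Y2, fun Y hY => ?_⟩
  have h3 := h1 Y (by omega)
  have h4 := h2 Y (by omega)
  have hl2 : 0 < Real.log 2 := Real.log_pos (by norm_num)
  have h5 : 0 < Real.log 2 / ε₁ := by positivity
  intro a b ha hab hb
  refine le_trans (le_of_eq ?_) (h3 a b ha hab hb)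
  congr 2
  apply sum_congr rfl
  intro p hp
  beta_reduce
  rw [ro_odd A p]
  · unfold pr at hp
    exact (mem_filter.1 (mem_filter.1 hp).1).2.1
  · rintro rfl
    unfold pr at hp
    have h6 := (mem_filter.1 (mem_filter.1 hp).1).2.2.1
    unfold tt at h6
    rw [le_div_iff₀ (by linarith)] at h6
    have h7 : Real.log 2 / ε₁ * ε₁ = Real.log 2 := by field_simp
    push_cast at h6
    nlinarith

/-- the local factor has the exact order -/
theorem lo_EF (A : ℤ) (hns : ¬ IsSquare (1 - 4 * A)) (hA : Odd A) : ∃ c : ℝ, 0 < c ∧ ∀ Z : ℕ, 3 ≤ Z →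
    c / Real.log Z ≤ lo (EF A) Z := by
  obtain ⟨c, hc, h⟩ := lo_quad (4 * A - 1) (by rw [show -(4 * A - 1) = 1 - 4 * A by ring]; exact hns)
  refine ⟨c, hc, fun Z hZ => (h Z hZ).trans ?_⟩
  unfold lo
  apply Finset.prod_le_prod
  · intro p hp
    have hpp := (mem_filter.1 hp).2
    have hp0 : (0 : ℝ) < p := by exact_mod_cast hpp.pos
    have h1 : (ro (QF (4 * A - 1)) 0 p : ℝ) ≤ p := by exact_mod_cast ro_le_self (QF (4 * A - 1)) 0 p
    rw [sub_nonneg, div_le_one hp0]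
    exact h1
  · intro p hp
    have hpp := (mem_filter.1 hp).2
    have hp0 : (0 : ℝ) < p := by exact_mod_cast hpp.pos
    by_cases h2 : p = 2
    · rw [h2, ro_even A hA]
      have : 0 ≤ (ro (QF (4 * A - 1)) 0 2 : ℝ) / (2 : ℕ) := by positivity
      simp only [Nat.cast_zero, zero_div, sub_zero]
      linarith
    · rw [ro_odd A p hpp h2]

end Pool.Agent.E8helper86.EL
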