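import Pool.Agent.E8helper86.EL.Short
import Pool.Agent.Y882.JR.Lim
import Pool.Agent.W366.DC.SFX
import Pool.Agent.Y445.JRB.Buch

/-! Primes of the form `n ^ 2 + n + A` in almost all short intervals: the upper bound. -/

set_option autoImplicit false

namespace Pool.Agent.E8helper86.EL

open Filter Finset Topology
open Pool.Agent.W23.DC
open Pool.Agent.Y882.PX
open Pool.Agent.Y882.SI
open Pool.Agent.Y882.JR (S_BUCH S_DENS A0_eq dens)
open Pool.Agent.Y781.JR (RR GG RR_conv dens_eq GG_pos)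

/-- the number of the `n` in `(N, N + H]` such that `n ^ 2 + n + A` is a prime -/
def primesIn (A N H : ℕ) : ℕ := ((Ioc N (N + H)).filter (fun n : ℕ => (n ^ 2 + n + A).Prime)).card

theorem densE_eq (A : ℤ) (hA : Odd A) (z : ℝ) (hz : 2 < z) : densE A z = 2 * dens (4 * A - 1) z := by
  have h2 : 2 ∈ (range ⌈z⌉₊).filter Nat.Prime := by
    rw [mem_filter, mem_range]
    exact ⟨Nat.lt_ceil.2 (by exact_mod_cast hz), Nat.prime_two⟩
  have e1 : ∀ p : ℕ, (((Finset.range p).filter (fun m : ℕ => (p : ℤ) ∣ (m : ℤ) ^ 2 + m + A)).card : ℝ) =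
      (ro (EF A) 0 p : ℝ) := by
    intro p
    rw [ro_eq]
    congr 2
    apply filter_congr
    intro m _
    rw [EF_eval, add_zero]
  have e2 : ∀ p : ℕ, (((Finset.range p).filter (fun m : ℕ => (p : ℤ) ∣ (m : ℤ) ^ 2 + (4 * A - 1))).card : ℝ) =
      (ro (QF (4 * A - 1)) 0 p : ℝ) := by
    intro p
    rw [ro_eq]
    congr 2
    apply filter_congr
    intro m _
    rw [QF_eval, add_zero]
  unfold densE Pool.Agent.Y882.JR.dens
  simp only [e1, e2]
  rw [← mul_prod_erase _ _ h2, ← mul_prod_erase _ _ h2, ro_even A hA, ro_quad_two]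
  have e3 : ∏ p ∈ ((range ⌈z⌉₊).filter Nat.Prime).erase 2, (1 - (ro (EF A) 0 p : ℝ) / p) =
      ∏ p ∈ ((range ⌈z⌉₊).filter Nat.Prime).erase 2, (1 - (ro (QF (4 * A - 1)) 0 p : ℝ) / p) := by
    apply prod_congr rfl
    intro p hp
    rw [mem_erase, mem_filter] at hp
    rw [ro_odd A p hp.2.2 hp.1]
  rw [e3]
  push_cast
  ring

theorem ns (A : ℕ) (hA : Odd A) : ¬ IsSquare (1 - 4 * (A : ℤ)) := by
  rintro ⟨r, hr⟩
  have h1 : 1 ≤ A := hA.pos
  have h2 : (1 : ℤ) ≤ A := by exact_mod_cast h1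
  nlinarith [mul_self_nonneg r]

open Classical in
theorem split (A : ℕ) (z : ℝ) (N H : ℕ) (M : ℕ) (hM : ∀ n : ℕ, M < n → z ≤ (n : ℝ) ^ 2 + 1) (hA : 1 ≤ A) :
    primesIn A N H ≤ roughE A z N H + (if M ≤ N then 0 else M) := by
  unfold primesIn roughE
  have h1 : (Ioc N (N + H)).filter (fun n : ℕ => (n ^ 2 + n + A).Prime) ⊆
      (Finset.Ioc N (N + H)).filter
        (fun n : ℕ => ∀ p : ℕ, p.Prime → (p : ℤ) ∣ (n : ℤ) ^ 2 + n + A → z ≤ p) ∪
      (if M ≤ N then ∅ else Ioc 0 M) := by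
    intro n hn
    rw [mem_filter, mem_Ioc] at hn
    rw [mem_union, mem_filter, mem_Ioc]
    by_cases hMn : M < n
    · left
      refine ⟨hn.1, fun p hp hd => ?_⟩
      have h2 : p ∣ n ^ 2 + n + A := by exact_mod_cast hd
      rw [(Nat.prime_dvd_prime_iff_eq hp hn.2).1 h2]
      push_cast
      have hA' : (1 : ℝ) ≤ A := by exact_mod_cast hA
      have hn0 : (0 : ℝ) ≤ n := Nat.cast_nonneg n
      linarith [hM n hMn]
    · right
      push Not at hMn
      rw [if_neg (by omega), mem_Ioc]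
      omega
  refine (card_le_card h1).trans ((card_union_le _ _).trans ?_)
  apply Nat.add_le_add_left
  split_ifs
  · simp
  · simp

open Classical in
theorem main (A : ℕ) (hA' : Odd A) : ∃ L : ℝ, 0 < L ∧
    Tendsto (fun x : ℕ => ∏ p ∈ (Finset.range (x + 1)).filter (fun p => p.Prime ∧ p ≠ 2),
            (1 - (jacobiSym (1 - 4 * (A : ℤ)) p : ℝ) / ((p : ℝ) - 1))) atTop (𝓝 L) ∧
    ∀ h τ δ ε : ℝ, 0 < h → h ≤ 1 → 1 / 2 ≤ τ → τ < 1 → 0 < δ → 0 < ε →
      ∀ᶠ X : ℕ in atTop, (((Icc 1 X).filter (fun N : ℕ =>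
        (4 / τ + δ) * (L * ((X : ℝ) ^ h / Real.log X)) <
          (primesIn A N ⌊(X : ℝ) ^ h⌋₊ : ℝ))).card : ℝ) ≤ (X : ℝ) ^ (2 * τ - h + ε) := by
  obtain ⟨A0, F, f, hSF⟩ := Pool.Agent.W366.DC.SFX
  have hA : A0 = 2 * Real.exp Real.eulerMascheroniConstant :=
    A0_eq Pool.Agent.Y445.JRB.t hSF
  have hodd : Odd (A : ℤ) := by exact_mod_cast hA'
  have hA1 : 1 ≤ A := hA'.pos
  have hneg : -(4 * (A : ℤ) - 1) = 1 - 4 * (A : ℤ) := by ring
  have hns : ¬ IsSquare (-(4 * (A : ℤ) - 1)) := by rw [hneg]; exact ns A hA'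
  obtain ⟨C, hC, hR⟩ := RR_conv (4 * (A : ℤ) - 1) hns
  refine ⟨C, hC, ?_, ?_⟩
  · have := hR.comp (tendsto_add_atTop_nat 1)
    refine this.congr (fun x => ?_)
    simp only [Function.comp]
    unfold RR
    rw [hneg]
  intro h τ δ ε hh hh1 hτ1 hτ hδ hε
  have hτ0 : 0 < τ := by linarith
  obtain ⟨C', hC', hN', hz⟩ := Pool.Agent.Y781.JR.t (4 * (A : ℤ) - 1) hns
  -- the two constants agree
  have hCC : C' = C := by
    refine tendsto_nhds_unique hN' ?_
    refine hR.congr (fun N => ?_)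
    rw [dens_eq, Nat.ceil_natCast]
    change RR (4 * (A : ℤ) - 1) N = GG N * RR (4 * (A : ℤ) - 1) N / GG N
    rw [mul_div_cancel_left₀ _ (GG_pos N).ne']
  rw [hCC] at hz
  have hF1 : F 1 = A0 := by rw [hSF.F3 1 le_rfl (by norm_num), div_one]
  set γ := Real.eulerMascheroniConstant with hγ
  have hE : 0 < Real.exp γ := Real.exp_pos _
  have hXr : Tendsto (fun X : ℕ => (X : ℝ)) atTop atTop := tendsto_natCast_atTop_atTop
  -- dens at X ^ τ
  have hz2 : Tendsto (fun X : ℕ => densE A ((X : ℝ) ^ τ) * Real.log X) atTop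
      (𝓝 (2 * (C * Real.exp (-γ) / τ))) := by
    have h1 := ((hz.comp ((tendsto_rpow_atTop hτ0).comp hXr)).div_const τ).const_mul 2
    refine h1.congr' ?_
    have evz : ∀ᶠ X : ℕ in atTop, (3 : ℝ) ≤ (X : ℝ) ^ τ :=
      ((tendsto_rpow_atTop hτ0).comp hXr).eventually_ge_atTop _
    filter_upwards [eventually_gt_atTop 0, evz] with X hX hX3
    have hX0 : (0 : ℝ) < X := by exact_mod_cast hX
    simp only [Function.comp]
    rw [Real.log_rpow hX0, densE_eq A hodd _ (by linarith)]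
    field_simp
  -- choice of the small constant
  set δ' : ℝ := δ * Real.exp γ * τ / 8 with hδ'
  have hδ'0 : 0 < δ' := by positivity
  have hlim : Tendsto (fun X : ℕ => (A0 + δ') * (densE A ((X : ℝ) ^ τ) * Real.log X)) atTop
      (𝓝 ((A0 + δ') * (2 * (C * Real.exp (-γ) / τ)))) := hz2.const_mul _
  have hval : (A0 + δ') * (2 * (C * Real.exp (-γ) / τ)) = (4 / τ + δ / 4) * C := by
    rw [hA, hδ', Real.exp_neg]
    field_simp
    ring
  rw [hval] at hlim
  have ev1 : ∀ᶠ X : ℕ in atTop, (A0 + δ') * (densE A ((X : ℝ) ^ τ) * Real.log X) <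
      (4 / τ + δ / 2) * C := by
    apply hlim.eventually (gt_mem_nhds _)
    have : 0 < δ * C := by positivity
    nlinarith
  have H := finE A0 F f hSF A (ns A hA') hodd τ 1 h δ' (ε / 2) hτ1 hτ le_rfl hh hh1 hδ'0 (by linarith)
  -- the small n
  have hsmall : ∀ᶠ X : ℕ in atTop, ∀ n : ℕ, ⌊(X : ℝ) ^ (τ / 2)⌋₊ < n →
      (X : ℝ) ^ τ ≤ (n : ℝ) ^ 2 + 1 := by
    filter_upwards [eventually_gt_atTop 0] with X hX n hn
    have hX0 : (0 : ℝ) < X := by exact_mod_cast hX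
    have h1 : (X : ℝ) ^ (τ / 2) < n := Nat.lt_of_floor_lt hn
    have h2 : (X : ℝ) ^ τ = ((X : ℝ) ^ (τ / 2)) ^ 2 := by
      rw [← Real.rpow_natCast, ← Real.rpow_mul hX0.le]
      norm_num
    rw [h2]
    have h3 : 0 ≤ (X : ℝ) ^ (τ / 2) := by positivity
    nlinarith
  have evε : ∀ᶠ X : ℕ in atTop, (2 : ℝ) ≤ (X : ℝ) ^ (ε / 2) :=
    ((tendsto_rpow_atTop (by linarith)).comp hXr).eventually_ge_atTop _
  rcases lt_or_ge (τ / 2) h with hc | hc
  · -- the small n are negligible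
    have ev2 : ∀ᶠ X : ℕ in atTop, (X : ℝ) ^ (τ / 2) ≤ δ / 2 * (C * ((X : ℝ) ^ h / Real.log X)) := by
      have h1 := (isLittleO_log_rpow_atTop (show 0 < h - τ / 2 by linarith)).bound
        (show 0 < δ / 2 * C by positivity)
      filter_upwards [hXr.eventually h1, eventually_ge_atTop 3] with X hX hX3
      have hX3r : (3 : ℝ) ≤ X := by exact_mod_cast hX3
      have hX0 : (0 : ℝ) < X := by linarith
      have hl : 0 < Real.log X := Real.log_pos (by linarith)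
      rw [Real.norm_of_nonneg hl.le, Real.norm_of_nonneg (by positivity)] at hX
      have h2 : (X : ℝ) ^ h = (X : ℝ) ^ (h - τ / 2) * (X : ℝ) ^ (τ / 2) := by
        rw [← Real.rpow_add hX0]; congr 1; ring
      rw [h2]
      have h3 : 0 < (X : ℝ) ^ (τ / 2) := by positivity
      have h4 : δ / 2 * (C * ((X : ℝ) ^ (h - τ / 2) * (X : ℝ) ^ (τ / 2) / Real.log X)) =
          (δ / 2 * C * (X : ℝ) ^ (h - τ / 2)) / Real.log X * (X : ℝ) ^ (τ / 2) := by ring
      rw [h4]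
      have h5 : 1 ≤ (δ / 2 * C * (X : ℝ) ^ (h - τ / 2)) / Real.log X := by
        rw [le_div_iff₀ hl]; linarith
      nlinarith
    filter_upwards [H, ev1, ev2, hsmall, evε, eventually_ge_atTop 3] with X hX e1 e2 e3 e4 hX3
    have hX3r : (3 : ℝ) ≤ X := by exact_mod_cast hX3
    have hX0 : (0 : ℝ) < X := by linarith
    have hl : 0 < Real.log X := Real.log_pos (by linarith)
    rw [div_one, hF1] at hX
    refine le_trans ?_ (hX.trans ?_)
    · norm_cast
      apply card_le_card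
      intro N hN
      rw [mem_filter] at hN ⊢
      refine ⟨hN.1, fun hcon => ?_⟩
      have h1 := split A ((X : ℝ) ^ τ) N ⌊(X : ℝ) ^ h⌋₊ ⌊(X : ℝ) ^ (τ / 2)⌋₊ e3 hA1
      have h2 : (primesIn A N ⌊(X : ℝ) ^ h⌋₊ : ℝ) ≤ roughE A ((X : ℝ) ^ τ) N ⌊(X : ℝ) ^ h⌋₊ +
          (X : ℝ) ^ (τ / 2) := by
        have h3 : ((if ⌊(X : ℝ) ^ (τ / 2)⌋₊ ≤ N then 0 else ⌊(X : ℝ) ^ (τ / 2)⌋₊ : ℕ) : ℝ) ≤
            (X : ℝ) ^ (τ / 2) := by
          split_ifs
          · push_cast; positivity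
          · exact Nat.floor_le (by positivity)
        have h4 : (primesIn A N ⌊(X : ℝ) ^ h⌋₊ : ℝ) ≤
            ((roughE A ((X : ℝ) ^ τ) N ⌊(X : ℝ) ^ h⌋₊ +
              (if ⌊(X : ℝ) ^ (τ / 2)⌋₊ ≤ N then 0 else ⌊(X : ℝ) ^ (τ / 2)⌋₊) : ℕ) : ℝ) := by
          exact_mod_cast h1
        rw [Nat.cast_add] at h4
        linarith
      have h5 := hcon.2
      have h6 : (A0 + δ') * ((X : ℝ) ^ h * densE A ((X : ℝ) ^ τ)) ≤
          (4 / τ + δ / 2) * (C * ((X : ℝ) ^ h / Real.log X)) := by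
        have h7 : (A0 + δ') * ((X : ℝ) ^ h * densE A ((X : ℝ) ^ τ)) =
            ((A0 + δ') * (densE A ((X : ℝ) ^ τ) * Real.log X)) * ((X : ℝ) ^ h / Real.log X) := by
          field_simp
        rw [h7]
        have h8 : 0 ≤ (X : ℝ) ^ h / Real.log X := by positivity
        have := mul_le_mul_of_nonneg_right e1.le h8
        linarith
      have h9 := hN.2
      linarith
    · apply Real.rpow_le_rpow_of_exponent_le (by linarith)
      linarith
  · -- the small N are exceptional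
    filter_upwards [H, ev1, hsmall, evε, eventually_ge_atTop 3] with X hX e1 e3 e4 hX3
    have hX3r : (3 : ℝ) ≤ X := by exact_mod_cast hX3
    have hX0 : (0 : ℝ) < X := by linarith
    have hl : 0 < Real.log X := Real.log_pos (by linarith)
    rw [div_one, hF1] at hX
    set M : ℕ := ⌊(X : ℝ) ^ (τ / 2)⌋₊ with hM
    have hsub : (Icc 1 X).filter (fun N : ℕ =>
        (4 / τ + δ) * (C * ((X : ℝ) ^ h / Real.log X)) <
          (primesIn A N ⌊(X : ℝ) ^ h⌋₊ : ℝ)) ⊆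
        Ioc 0 M ∪ (Icc 1 X).filter (fun N =>
      ¬ ((f 1 - δ') * ((X : ℝ) ^ h * densE A ((X : ℝ) ^ τ)) ≤
          (roughE A ((X : ℝ) ^ τ) N ⌊(X : ℝ) ^ h⌋₊ : ℝ) ∧
        (roughE A ((X : ℝ) ^ τ) N ⌊(X : ℝ) ^ h⌋₊ : ℝ) ≤
          (A0 + δ') * ((X : ℝ) ^ h * densE A ((X : ℝ) ^ τ)))) := by
      intro N hN
      rw [mem_filter] at hN
      rw [mem_union, mem_filter, mem_Ioc]
      rcases Nat.lt_or_ge N M with hNM | hNM
      · left
        have := (mem_Icc.1 hN.1).1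
        omega
      · right
        refine ⟨hN.1, fun hcon => ?_⟩
        have h1 := split A ((X : ℝ) ^ τ) N ⌊(X : ℝ) ^ h⌋₊ M e3 hA1
        rw [if_pos hNM, add_zero] at h1
        have h2 : (primesIn A N ⌊(X : ℝ) ^ h⌋₊ : ℝ) ≤ roughE A ((X : ℝ) ^ τ) N ⌊(X : ℝ) ^ h⌋₊ := by
          exact_mod_cast h1
        have h5 := hcon.2
        have h6 : (A0 + δ') * ((X : ℝ) ^ h * densE A ((X : ℝ) ^ τ)) ≤
            (4 / τ + δ / 2) * (C * ((X : ℝ) ^ h / Real.log X)) := by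
          have h7 : (A0 + δ') * ((X : ℝ) ^ h * densE A ((X : ℝ) ^ τ)) =
              ((A0 + δ') * (densE A ((X : ℝ) ^ τ) * Real.log X)) * ((X : ℝ) ^ h / Real.log X) := by
            field_simp
          rw [h7]
          have h8 : 0 ≤ (X : ℝ) ^ h / Real.log X := by positivity
          have := mul_le_mul_of_nonneg_right e1.le h8
          linarith
        have h9 := hN.2
        have h10 : 0 < δ / 2 * (C * ((X : ℝ) ^ h / Real.log X)) := by positivity
        nlinarith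
    have h1 := card_le_card hsub
    have h2 := h1.trans (card_union_le _ _)
    have h3 : (((Icc 1 X).filter (fun N : ℕ =>
        (4 / τ + δ) * (C * ((X : ℝ) ^ h / Real.log X)) <
          (primesIn A N ⌊(X : ℝ) ^ h⌋₊ : ℝ))).card : ℝ) ≤ ((Ioc 0 M).card : ℝ) +
          (X : ℝ) ^ (2 * τ - h + ε / 2) := by
      refine le_trans ?_ (add_le_add le_rfl hX)
      exact_mod_cast h2
    refine h3.trans ?_
    have h4 : ((Ioc 0 M).card : ℝ) ≤ (X : ℝ) ^ (2 * τ - h + ε / 2) := by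
      rw [Nat.card_Ioc, Nat.sub_zero, hM]
      refine (Nat.floor_le (by positivity)).trans ?_
      apply Real.rpow_le_rpow_of_exponent_le (by linarith)
      linarith
    calc ((Ioc 0 M).card : ℝ) + (X : ℝ) ^ (2 * τ - h + ε / 2) ≤ 2 * (X : ℝ) ^ (2 * τ - h + ε / 2) := by
          linarith
      _ ≤ (X : ℝ) ^ (ε / 2) * (X : ℝ) ^ (2 * τ - h + ε / 2) := by gcongr
      _ = (X : ℝ) ^ (2 * τ - h + ε) := by
          rw [← Real.rpow_add hX0]; congr 1; ring

end Pool.Agent.E8helper86.EL
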